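import Pool.Agent.Helper51.GP.Defs
import Pool.Agent.Helper38.PB.Reg
import Pool.Agent.Helper94.PG.Tail

/-!
# GP-B: the bad set of cheap walks, translation
-/

set_option autoImplicit false

namespace Pool.Agent.Helper49.GP

open MeasureTheory ProbabilityTheory Filter Pool.Agent.Helper79.GR Pool.Agent.Helper79.GQ
open Pool.Agent.Helper51.NP Pool.Agent.Helper51.GP
open scoped Topology

variable {Ω : Type*} [MeasurableSpace Ω] {P : Measure Ω} {d : ℕ} {X : Edge d → Ω → ℝ}
  {ν : Measure ℝ} {a δ b B l : ℝ}

/-- there is a cheap walk with distinct edges of at least `n` steps from `x` -/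
def BadC (a : ℝ) (n : ℕ) (x : V d) : Set (Edge d → ℝ) :=
  {c | ∃ w : List (St d), n ≤ w.length ∧ (eds x w).Nodup ∧ cost c x w ≤ a * w.length}

theorem measurable_cost (x : V d) (w : List (St d)) :
    Measurable fun c : Edge d → ℝ => cost c x w := by
  induction w generalizing x with
  | nil => exact measurable_const
  | cons s w ih => exact (measurable_pi_apply (ed x s)).add (ih (x + sv s))

theorem measurableSet_BadC (a : ℝ) (n : ℕ) (x : V d) : MeasurableSet (BadC a n x) := by
  have h1 : BadC a n x = ⋃ w : List (St d), {c | n ≤ w.length ∧ (eds x w).Nodup ∧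
      cost c x w ≤ a * w.length} := by
    ext c
    simp [BadC]
  rw [h1]
  refine MeasurableSet.iUnion fun w => ?_
  by_cases h : n ≤ w.length ∧ (eds x w).Nodup
  · have h2 : {c : Edge d → ℝ | n ≤ w.length ∧ (eds x w).Nodup ∧ cost c x w ≤ a * w.length} =
        {c | cost c x w ≤ a * w.length} := by
      ext c
      simp [h.1, h.2]
    rw [h2]
    exact measurableSet_le (measurable_cost x w) measurable_const
  · have h2 : {c : Edge d → ℝ | n ≤ w.length ∧ (eds x w).Nodup ∧ cost c x w ≤ a * w.length} =
        ∅ := by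
      ext c
      simp only [Set.mem_ofPred_eq, Set.mem_empty_iff_false, iff_false]
      rintro ⟨h3, h4, -⟩
      exact h ⟨h3, h4⟩
    rw [h2]
    exact MeasurableSet.empty

theorem eds_add (v x : V d) (w : List (St d)) : eds (x + v) w = (eds x w).map (sh v) := by
  induction w generalizing x with
  | nil => rfl
  | cons s w ih =>
    show ed (x + v) s :: eds (x + v + sv s) w = sh v (ed x s) :: (eds (x + sv s) w).map (sh v)
    rw [sh_ed, ← ih, add_right_comm x v (sv s)]

theorem mem_BadC_shift (a : ℝ) (n : ℕ) (v x : V d) (c : Edge d → ℝ) :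
    c ∈ BadC a n (x + v) ↔ (fun e => c (sh v e)) ∈ BadC a n x := by
  unfold BadC
  simp only [Set.mem_ofPred_eq, cost_shift, eds_add, List.nodup_map_iff (sh_injective v)]

theorem prob_BadC (h : Env P X ν δ b) (hR : Reg P X a) (n : ℕ) (x : V d) :
    P {ω | cf X ω ∈ BadC a n x} ≤ ENNReal.ofReal (Real.exp (-n)) := by
  have hm1 : Measurable fun ω e => X (sh x e) ω := measurable_pi_iff.2 fun e => h.meas (sh x e)
  have hm2 : Measurable fun ω e => X e ω := measurable_pi_iff.2 h.meas
  have h1 : {ω | cf X ω ∈ BadC a n x} = (fun ω e => X (sh x e) ω) ⁻¹' BadC a n 0 := by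
    ext ω
    have := mem_BadC_shift a n x 0 (cf X ω)
    rw [zero_add] at this
    exact this
  rw [h1, ← Measure.map_apply hm1 (measurableSet_BadC a n 0), map_shift h x,
    Measure.map_apply hm2 (measurableSet_BadC a n 0)]
  exact hR.peierls n

/-- the bridge to `Helper38.PB.Reg` -/
theorem toReg (h : Env P X ν δ b) (hR : Reg P X a) : Pool.Agent.Helper38.PB.Reg P X a 1 := by
  refine ⟨hR.apos, one_pos, fun x L => ?_⟩
  rw [one_mul]
  refine le_trans (measure_mono ?_) (prob_BadC h hR L x)
  rintro ω ⟨w, h1, h2, h3⟩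
  exact ⟨w, h1, h2, h3.le⟩

theorem real_BadC (h : Env P X ν δ b) (hR : Reg P X a) (n : ℕ) (x : V d) :
    P.real {ω | cf X ω ∈ BadC a n x} ≤ Real.exp (-n) := by
  have h1 := prob_BadC h hR n x
  have := h.prob
  rw [Measure.real]
  exact ENNReal.toReal_le_of_le_ofReal (Real.exp_pos _).le h1

end Pool.Agent.Helper49.GP
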