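import Pool.Agent.Helper51.NP.A
import Pool.Agent.Helper33.PG.HerbstS
import Pool.Agent.Helper94.PG.Tail

/-!
# Corollaries of the lower tail inequality (block B of project NP)
-/

set_option autoImplicit false

namespace Pool.Agent.Helper49.PG

open MeasureTheory ProbabilityTheory Filter Pool.Agent.Helper79.GR Pool.Agent.Helper79.GQ
open Pool.Agent.Helper51.NP
open scoped Topology

variable {Ω : Type*} [MeasurableSpace Ω] {P : Measure Ω} {d : ℕ} {X : Edge d → Ω → ℝ}
  {ν : Measure ℝ} {a b B l : ℝ}

theorem n1_zero' {v : V 0} : n1 v = 0 := by simp [n1]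

theorem hk_nonneg (h : Env P X ν a b) (hB : b ≤ B) : d = 0 ∨ 0 ≤ hk a b B := by
  rcases Nat.eq_zero_or_pos d with h0 | h0
  · exact Or.inl h0
  · right
    have := h.prob
    obtain ⟨ω⟩ := nonempty_of_isProbabilityMeasure P
    have h1 := h.bd (ed 0 (⟨0, h0⟩, true)) ω
    have h2 := h.apos
    have h3 : 0 ≤ B := by linarith
    unfold hk
    positivity

theorem herbst_Z (h : Env P X ν a b) (hl : 0 ≤ l) (v : V d) :
    Z P X l 0 v ≤ Real.exp (-(l * mm P X v) + hk a b b * l ^ 2 * n1 v) := by
  have h1 := Pool.Agent.Helper33.NP.herbst h le_rfl Set.univ hl 0 v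
  have h2 : ∀ c : Edge d → ℝ, cut Set.univ b c = c := fun c =>
    cut_univ Set.univ fun e => Set.mem_univ e
  unfold Zc mc at h1
  simp only [h2, sub_zero] at h1
  exact h1

/-- Herbst for the annealed passage time -/
theorem mm_le_al (h : Env P X ν a b) (hl : 0 < l) (v : V d) :
    mm P X v ≤ al P X l v + hk a b b * l * n1 v := by
  have h1 := herbst_Z h hl.le v
  rw [Z_eq h hl v, Real.exp_le_exp] at h1
  have h2 : l * (mm P X v) ≤ l * (al P X l v + hk a b b * l * n1 v) := by nlinarith
  exact le_of_mul_le_mul_left h2 hl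

theorem uu_le_nl (h : Env P X ν a b) (hl : 0 < l) (x : F d) :
    uu P X x ≤ nl P X l x + hk a b b * l * nr x := by
  have ht : Tendsto (fun n : ℕ => (al P X l (fl n x)) / n + hk a b b * l * (nr x + d / n)) atTop
      (𝓝 (nl P X l x + hk a b b * l * (nr x + 0))) := by
    refine (tendsto_al h hl x).add (tendsto_const_nhds.mul (tendsto_const_nhds.add ?_))
    exact tendsto_const_div_atTop_nhds_zero_nat (d : ℝ)
  rw [add_zero] at ht
  refine le_of_tendsto_of_tendsto (tendsto_tc (subM_mm h) x) ht ?_
  filter_upwards [eventually_gt_atTop 0] with n hn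
  have hn' : (0 : ℝ) < n := Nat.cast_pos.2 hn
  have h1 := mm_le_al h hl (fl n x)
  have h2 : hk a b b * l * n1 (fl n x) ≤ hk a b b * l * (n * nr x + d) := by
    rcases hk_nonneg h (le_refl b) with h0 | h0
    · subst h0
      simp [n1, nr]
    · exact mul_le_mul_of_nonneg_left (n1_fl_le n x) (by positivity)
  rw [div_le_iff₀ hn']
  have h3 : (al P X l (fl n x) / n + hk a b b * l * (nr x + d / n)) * n =
      al P X l (fl n x) + hk a b b * l * (n * nr x + d) := by
    field_simp
  rw [h3]
  linarith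

/-- if the passage time is below `z` with probability at least `p`, its mean is not much larger -/
theorem mc_le_of_prob (h : Env P X ν a b) (hB : b ≤ B) (S : Set (Edge d)) (x y : V d) (z p : ℝ)
    (hp : 0 < p) (hpz : p ≤ P.real {ω | T (cut S B (cf X ω)) x y ≤ z}) :
    mc P X S B x y ≤ z + √(4 * hk a b B * n1 (y - x) * Real.log (1 / p)) := by
  have := h.prob
  have hY := measurable_Tc h S B x y
  have hb : ∀ ω, |T (cut S B (cf X ω)) x y| ≤ B * n1 (y - x) := fun ω => by
    have h1 := Pool.Agent.Helper33.NP.T_cut_bd (h.cf_bd ω) hB S x y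
    rw [abs_of_nonneg h1.1]
    exact h1.2
  have H : ∀ t : ℝ, 0 ≤ t → ∫ ω, Real.exp (-(t * T (cut S B (cf X ω)) x y)) ∂P ≤
      Real.exp (-(t * mc P X S B x y) + t ^ 2 * (2 * hk a b B * n1 (y - x)) / 2) := by
    intro t ht
    refine (Pool.Agent.Helper33.NP.herbst h hB S ht x y).trans (le_of_eq ?_)
    congr 1
    ring
  rcases lt_or_ge 0 (2 * hk a b B * n1 (y - x)) with hK | hK
  · have h1 := Pool.Agent.Helper94.PG.mean_le hY hb hK H hp hpz
    refine h1.trans (le_of_eq ?_)
    congr 2
    ring
  · have h0 := Real.sqrt_nonneg (4 * hk a b B * n1 (y - x) * Real.log (1 / p))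
    suffices hs : mc P X S B x y ≤ z by linarith
    by_contra hcon
    push Not at hcon
    have hp1 : p ≤ 1 := hpz.trans (by
      have := measureReal_le_one (μ := P) (s := {ω | T (cut S B (cf X ω)) x y ≤ z})
      exact this)
    have hL : 0 ≤ Real.log (1 / p) := Real.log_nonneg (by rw [le_div_iff₀ hp]; linarith)
    set L := Real.log (1 / p) with hLd
    set δ := mc P X S B x y - z with hδ
    have hδ0 : 0 < δ := by rw [hδ]; linarith
    have hK' : 0 < δ ^ 2 / (4 * (L + 1)) := by positivity
    have H' : ∀ t : ℝ, 0 ≤ t → ∫ ω, Real.exp (-(t * T (cut S B (cf X ω)) x y)) ∂P ≤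
        Real.exp (-(t * mc P X S B x y) + t ^ 2 * (δ ^ 2 / (4 * (L + 1))) / 2) := by
      intro t ht
      refine (H t ht).trans (Real.exp_le_exp.2 ?_)
      have : t ^ 2 * (2 * hk a b B * n1 (y - x)) ≤ t ^ 2 * (δ ^ 2 / (4 * (L + 1))) :=
        mul_le_mul_of_nonneg_left (hK.trans hK'.le) (sq_nonneg t)
      linarith
    have h1 := Pool.Agent.Helper94.PG.mean_le hY hb hK' H' hp hpz
    have h2 : √(2 * (δ ^ 2 / (4 * (L + 1))) * L) < δ := by
      rw [Real.sqrt_lt' hδ0]
      have : 2 * (δ ^ 2 / (4 * (L + 1))) * L = δ ^ 2 * (L / (2 * (L + 1))) := by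
        field_simp
        ring
      rw [this]
      have h3 : L / (2 * (L + 1)) < 1 := by
        rw [div_lt_one (by positivity)]
        linarith
      have h4 : 0 < δ ^ 2 := by positivity
      nlinarith
    rw [← hLd] at h1
    linarith

theorem mm_le_of_Z (h : Env P X ν a b) (hl : 0 < l) (v : V d) (z c : ℝ) (hc : 0 < c)
    (hz : c ≤ Z P X l 0 v * Real.exp (l * z)) :
    mm P X v ≤ z + hk a b b * l * n1 v + Real.log (1 / c) / l := by
  have h1 := herbst_Z h hl.le v
  have h2 : c ≤ Real.exp (-(l * mm P X v) + hk a b b * l ^ 2 * n1 v + l * z) := by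
    rw [Real.exp_add]
    exact hz.trans (mul_le_mul_of_nonneg_right h1 (Real.exp_pos _).le)
  have h3 : Real.log c ≤ -(l * mm P X v) + hk a b b * l ^ 2 * n1 v + l * z :=
    (Real.log_le_iff_le_exp hc).2 h2
  have h4 : Real.log (1 / c) = -Real.log c := by rw [one_div, Real.log_inv]
  rw [h4]
  have h5 : l * mm P X v ≤ l * (z + hk a b b * l * n1 v + -Real.log c / l) := by
    have : l * (z + hk a b b * l * n1 v + -Real.log c / l) =
        l * z + hk a b b * l ^ 2 * n1 v - Real.log c := by
      field_simp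
      ring
    rw [this]
    linarith
  exact le_of_mul_le_mul_left h5 hl

/-- the positive part of the fluctuation -/
theorem pos_part (h : Env P X ν a b) (x y : V d) :
    ∫ ω, max (T (cf X ω) x y - mm P X (y - x)) 0 ∂P ≤
      4 * √((hk a b b + 1) * n1 (y - x)) := by
  have := h.prob
  have hY := measurable_T h x y
  have hb : ∀ ω, |T (cf X ω) x y| ≤ b * n1 (y - x) := fun ω => by
    rw [abs_of_nonneg (T_nonneg' (h.cf_bd ω) x y)]
    exact T_le (h.cf_bd ω) x y
  have hint := integral_T h x y
  have hTi := integrable_T h x y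
  rcases (n1_nonneg (y - x)).eq_or_lt with h0 | h0
  · have h1 : ∀ ω, max (T (cf X ω) x y - mm P X (y - x)) 0 = 0 := by
      intro ω
      have h2 := T_le (h.cf_bd ω) x y
      have h3 := (subM_mm h).lo (y - x)
      rw [← h0] at h2 h3
      refine max_eq_right ?_
      linarith
    simp only [h1, integral_zero]
    positivity
  · have hk0 : 0 ≤ hk a b b := by
      rcases hk_nonneg h (le_refl b) with h1 | h1
      · subst h1
        simp [n1] at h0
      · exact h1
    have hK : 0 < 2 * (hk a b b + 1) * n1 (y - x) := by positivity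
    have H : ∀ t : ℝ, 0 ≤ t → ∫ ω, Real.exp (-(t * T (cf X ω) x y)) ∂P ≤
        Real.exp (-(t * ∫ ω, T (cf X ω) x y ∂P) + t ^ 2 * (2 * (hk a b b + 1) * n1 (y - x)) / 2) := by
      intro t ht
      rw [hint]
      have h1 := herbst_Z h ht (y - x)
      rw [← Z_eq_zero_sub h t x y] at h1
      refine h1.trans (Real.exp_le_exp.2 ?_)
      have : 0 ≤ t ^ 2 * n1 (y - x) := by positivity
      nlinarith
    have h1 := Pool.Agent.Helper94.PG.abs_dev hY hb hK H
    rw [hint] at h1
    have hi : Integrable (fun ω => T (cf X ω) x y - mm P X (y - x)) P :=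
      hTi.sub (integrable_const _)
    have h2 : ∫ ω, max (T (cf X ω) x y - mm P X (y - x)) 0 ∂P =
        (∫ ω, |T (cf X ω) x y - mm P X (y - x)| ∂P) / 2 := by
      have h3 : ∀ ω, max (T (cf X ω) x y - mm P X (y - x)) 0 =
          (|T (cf X ω) x y - mm P X (y - x)| + (T (cf X ω) x y - mm P X (y - x))) / 2 := by
        intro ω
        rcases le_total 0 (T (cf X ω) x y - mm P X (y - x)) with h4 | h4
        · rw [max_eq_left h4, abs_of_nonneg h4]; ring
        · rw [max_eq_right h4, abs_of_nonpos h4]; ring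
      simp only [h3]
      rw [integral_div, integral_add hi.abs hi, integral_sub hTi (integrable_const _), hint]
      simp
    rw [h2]
    have h5 : √(2 * (hk a b b + 1) * n1 (y - x)) ≤ 2 * √((hk a b b + 1) * n1 (y - x)) := by
      have h6 : (2 : ℝ) * √((hk a b b + 1) * n1 (y - x)) =
          √(4 * ((hk a b b + 1) * n1 (y - x))) := by
        rw [Real.sqrt_mul (by norm_num : (0 : ℝ) ≤ 4)]
        norm_num
      rw [h6]
      exact Real.sqrt_le_sqrt (by nlinarith [mul_pos (by linarith : 0 < hk a b b + 1) h0])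
    linarith

end Pool.Agent.Helper49.PG
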