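import Pool.Agent.Helper49.PG.GB1
import Pool.Agent.Helper49.PG.B

/-!
# GP-B: number of edges of minimal walks, exponential decay
-/

set_option autoImplicit false

namespace Pool.Agent.Helper49.GP

open MeasureTheory ProbabilityTheory Filter Pool.Agent.Helper79.GR Pool.Agent.Helper79.GQ
open Pool.Agent.Helper51.NP Pool.Agent.Helper51.GP
open scoped Topology

variable {Ω : Type*} [MeasurableSpace Ω] {P : Measure Ω} {d : ℕ} {X : Edge d → Ω → ℝ}
  {ν : Measure ℝ} {a δ b B l : ℝ}

theorem cost_le_cut {c : Edge d → ℝ} (hc : Bd δ b c) (hB : b ≤ B) (S : Set (Edge d)) (x : V d)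
    (w : List (St d)) : cost c x w ≤ cost (cut S B c) x w := by
  refine Pool.Agent.Helper33.PG.cost_mono (fun e => ?_) x w
  by_cases he : e ∈ S
  · rw [Pool.Agent.Helper33.NP.cut_mem he]
  · rw [Pool.Agent.Helper33.NP.cut_notMem he]
    exact (hc.2 e).2.trans hB

theorem len_mul_le_cost {c : Edge d → ℝ} (hc : Bd δ b c) (x : V d) (w : List (St d)) :
    δ * w.length ≤ cost c x w := by
  induction w generalizing x with
  | nil => simp [cost]
  | cons s w ih =>
    have h1 := ih (x + sv s)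
    have h2 := (hc.2 (ed x s)).1
    show δ * ((s :: w).length : ℕ) ≤ c (ed x s) + cost c (x + sv s) w
    rw [List.length_cons]
    push_cast
    linarith

open Classical in
/-- the bound for the number of edges -/
noncomputable def Nn (X : Edge d → Ω → ℝ) (a : ℝ) (M : ℕ) (S : Set (Edge d)) (B : ℝ)
    (x y : V d) (ω : Ω) : ℝ :=
  T (cut S B (cf X ω)) x y / a +
    ∑ n ∈ Finset.range M, (if cf X ω ∈ BadC a (n + 1) x then (1 : ℝ) else 0)

theorem le_Nn (h : Env P X ν δ b) (hR : Reg P X a) (hB : b ≤ B) (S : Set (Edge d)) (x y : V d)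
    {M : ℕ} (hM : B * n1 (y - x) / δ ≤ M) (ω : Ω) (w : List (St d)) (hw : pos x w = y)
    (hc : cost (cut S B (cf X ω)) x w = T (cut S B (cf X ω)) x y) (hn : (eds x w).Nodup) :
    (w.length : ℝ) ≤ Nn X a M S B x y ω := by
  classical
  have hbd := h.cf_bd ω
  have hδ : 0 < δ := hbd.1
  have hcut := Pool.Agent.Helper33.NP.cut_bd hbd hB S
  have hT := T_le hcut x y
  have hT0 : 0 ≤ T (cut S B (cf X ω)) x y := (Pool.Agent.Helper33.NP.T_cut_bd hbd hB S x y).1
  have h1 := cost_le_cut hbd hB S x w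
  have h2 := len_mul_le_cost hbd x w
  have hlenM : w.length ≤ M := by
    have : (w.length : ℝ) ≤ M := by
      refine le_trans ?_ hM
      rw [le_div_iff₀ hδ]
      linarith
    exact_mod_cast this
  have ha := hR.apos
  unfold Nn
  by_cases hbad : cost (cf X ω) x w ≤ a * w.length
  · have h3 : ∀ n ∈ Finset.range w.length, cf X ω ∈ BadC a (n + 1) x := by
      intro n hn'
      rw [Finset.mem_range] at hn'
      exact ⟨w, hn', hn, hbad⟩
    have h4 : (w.length : ℝ) ≤
        ∑ n ∈ Finset.range M, (if cf X ω ∈ BadC a (n + 1) x then (1 : ℝ) else 0) := by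
      calc (w.length : ℝ) = ∑ n ∈ Finset.range w.length, (1 : ℝ) := by simp
        _ = ∑ n ∈ Finset.range w.length,
            (if cf X ω ∈ BadC a (n + 1) x then (1 : ℝ) else 0) :=
          Finset.sum_congr rfl fun n hn' => (if_pos (h3 n hn')).symm
        _ ≤ _ := by
          refine Finset.sum_le_sum_of_subset_of_nonneg (Finset.range_mono hlenM) ?_
          intro n _ _
          split_ifs <;> norm_num
    have h5 : 0 ≤ T (cut S B (cf X ω)) x y / a := by positivity
    linarith
  · push Not at hbad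
    have h3 : (w.length : ℝ) ≤ T (cut S B (cf X ω)) x y / a := by
      rw [le_div_iff₀ ha]
      linarith
    have h4 : 0 ≤ ∑ n ∈ Finset.range M, (if cf X ω ∈ BadC a (n + 1) x then (1 : ℝ) else 0) :=
      Finset.sum_nonneg fun n _ => by split_ifs <;> norm_num
    linarith

theorem measurableSet_bad (h : Env P X ν δ b) (a : ℝ) (n : ℕ) (x : V d) :
    MeasurableSet {ω | cf X ω ∈ BadC a n x} :=
  (measurable_pi_iff.2 h.meas : Measurable fun ω e => X e ω) (measurableSet_BadC a n x)

theorem integrable_bad (h : Env P X ν δ b) (a : ℝ) (n : ℕ) (x : V d) :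
    Integrable ({ω | cf X ω ∈ BadC a n x}.indicator (fun _ => (1 : ℝ))) P := by
  have := h.prob
  exact (integrable_const (1 : ℝ)).indicator (measurableSet_bad h a n x)

theorem integral_bad (h : Env P X ν δ b) (hR : Reg P X a) (n : ℕ) (x : V d) :
    ∫ ω, ({ω | cf X ω ∈ BadC a n x}.indicator (fun _ => (1 : ℝ))) ω ∂P ≤ Real.exp (-n) := by
  rw [integral_indicator_const _ (measurableSet_bad h a n x), smul_eq_mul, mul_one]
  exact real_BadC h hR n x

theorem sum_exp_le (M : ℕ) : ∑ n ∈ Finset.range M, Real.exp (-((n + 1 : ℕ) : ℝ)) ≤ 1 := by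
  have h1 : ∀ n : ℕ, Real.exp (-((n + 1 : ℕ) : ℝ)) ≤ (1 / 2) ^ (n + 1) := by
    intro n
    have h2 : Real.exp (-((n + 1 : ℕ) : ℝ)) = (Real.exp (-1)) ^ (n + 1) := by
      rw [← Real.exp_nat_mul]
      congr 1
      ring
    rw [h2]
    refine pow_le_pow_left₀ (Real.exp_pos _).le ?_ _
    rw [Real.exp_neg, one_div]
    have := Real.add_one_le_exp (1 : ℝ)
    exact inv_anti₀ (by norm_num) (by linarith)
  have h3 : ∀ M : ℕ, ∑ n ∈ Finset.range M, ((1 : ℝ) / 2) ^ (n + 1) = 1 - (1 / 2) ^ M := by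
    intro M
    induction M with
    | zero => simp
    | succ M ih =>
      rw [Finset.sum_range_succ, ih]
      ring
  calc _ ≤ ∑ n ∈ Finset.range M, ((1 : ℝ) / 2) ^ (n + 1) := Finset.sum_le_sum fun n _ => h1 n
    _ = 1 - (1 / 2) ^ M := h3 M
    _ ≤ 1 := by
      have : (0 : ℝ) ≤ (1 / 2) ^ M := by positivity
      linarith

theorem Nn_eq (X : Edge d → Ω → ℝ) (a : ℝ) (M : ℕ) (S : Set (Edge d)) (B : ℝ) (x y : V d) :
    Nn X a M S B x y = fun ω => T (cut S B (cf X ω)) x y / a +
      ∑ n ∈ Finset.range M, ({ω | cf X ω ∈ BadC a (n + 1) x}.indicator (fun _ => (1 : ℝ))) ω := by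
  classical
  funext ω
  unfold Nn
  congr 1

theorem integrable_Nn (h : Env P X ν δ b) (hB : b ≤ B) (M : ℕ) (S : Set (Edge d)) (x y : V d) :
    Integrable (Nn X a M S B x y) P := by
  rw [Nn_eq]
  exact ((integrable_Tc h hB S x y).div_const a).add
    (integrable_finsetSum _ fun n _ => integrable_bad h a (n + 1) x)

theorem integral_Nn (h : Env P X ν δ b) (hR : Reg P X a) (hB : b ≤ B) (M : ℕ)
    (S : Set (Edge d)) (x y : V d) :
    ∫ ω, Nn X a M S B x y ω ∂P ≤ mc P X S B x y / a + 1 := by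
  rw [Nn_eq, integral_add ((integrable_Tc h hB S x y).div_const a)
    (integrable_finsetSum _ fun n _ => integrable_bad h a (n + 1) x), integral_div,
    integral_finsetSum _ fun n _ => integrable_bad h a (n + 1) x]
  have h1 : ∑ n ∈ Finset.range M,
      ∫ ω, ({ω | cf X ω ∈ BadC a (n + 1) x}.indicator (fun _ => (1 : ℝ))) ω ∂P ≤ 1 :=
    (Finset.sum_le_sum fun n _ => integral_bad h hR (n + 1) x).trans (sum_exp_le M)
  unfold mc
  linarith

/-- the first moment of the number of edges -/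
theorem mean_length (h : Env P X ν δ b) (hR : Reg P X a) (hB : b ≤ B) (hB1 : 1 ≤ B)
    (S : Set (Edge d)) (x y : V d) :
    ∃ N : Ω → ℝ, Integrable N P ∧ ∫ ω, N ω ∂P ≤ mc P X S B x y / a + 3 ∧
      ∀ ω w, pos x w = y → cost (cut S B (cf X ω)) x w = T (cut S B (cf X ω)) x y →
        (eds x w).Nodup → (w.length : ℝ) ≤ N ω := by
  obtain ⟨M, hM⟩ := exists_nat_ge (B * n1 (y - x) / δ)
  refine ⟨Nn X a M S B x y, integrable_Nn h hB M S x y, ?_, fun ω w hw hc hn =>
    le_Nn h hR hB S x y hM ω w hw hc hn⟩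
  have := integral_Nn h hR hB M S x y
  linarith

/-- exponential decay with constants which do not depend on `δ` -/
theorem Z_le (h : Env P X ν δ b) (hR : Reg P X a) (hl : 0 ≤ l) (hl1 : l ≤ 1) (x : V d) :
    Z P X l 0 x ≤ 2 * Real.exp (-(l * (a * n1 x))) := by
  have := h.prob
  have ha := hR.apos
  have ha1 := hR.ale
  obtain ⟨k, hk⟩ : ∃ k : ℕ, (k : ℝ) = n1 x := by
    refine ⟨∑ i, (x i).natAbs, ?_⟩
    unfold n1
    push_cast
    refine Finset.sum_congr rfl fun i _ => ?_
    rw [Nat.cast_natAbs]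
    push_cast
    rfl
  have hpt : ∀ ω, Real.exp (-(l * T (cf X ω) 0 x)) ≤ Real.exp (-(l * (a * n1 x))) +
      ({ω | cf X ω ∈ BadC a k 0}.indicator (fun _ => (1 : ℝ))) ω := by
    intro ω
    have hbd := h.cf_bd ω
    have hT0 : 0 ≤ T (cf X ω) 0 x := T_nonneg' hbd 0 x
    by_cases hbad : cf X ω ∈ BadC a k 0
    · have h1 : ({ω | cf X ω ∈ BadC a k 0}.indicator (fun _ => (1 : ℝ))) ω = 1 :=
        Set.indicator_of_mem (show ω ∈ {ω | cf X ω ∈ BadC a k 0} from hbad) _
      rw [h1]
      have h2 : Real.exp (-(l * T (cf X ω) 0 x)) ≤ 1 := by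
        rw [Real.exp_le_one_iff]
        have := mul_nonneg hl hT0
        linarith
      have := Real.exp_pos (-(l * (a * n1 x)))
      linarith
    · have h1 : ({ω | cf X ω ∈ BadC a k 0}.indicator (fun _ => (1 : ℝ))) ω = 0 :=
        Set.indicator_of_notMem (show ω ∉ {ω | cf X ω ∈ BadC a k 0} from hbad) _
      rw [h1, add_zero]
      refine Real.exp_le_exp.2 (neg_le_neg (mul_le_mul_of_nonneg_left ?_ hl))
      obtain ⟨w, hw, hcw⟩ := exists_min hbd 0 x
      have hg : Geo (cf X ω) 0 w := by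
        rw [geo_iff hbd, hw]
        exact hcw
      have hlen : n1 x ≤ w.length := by
        have := n1_pos_sub_le 0 w
        rwa [hw, sub_zero] at this
      have hlen' : k ≤ w.length := by
        have : (k : ℝ) ≤ w.length := by rw [hk]; exact hlen
        exact_mod_cast this
      by_contra hcon
      push Not at hcon
      refine hbad ⟨w, hlen', hg.nodup hbd, ?_⟩
      rw [hcw]
      exact hcon.le.trans (mul_le_mul_of_nonneg_left hlen ha.le)
  have hi := integrable_bad h a k 0
  have h1 : Z P X l 0 x ≤ ∫ ω, (Real.exp (-(l * (a * n1 x))) +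
      ({ω | cf X ω ∈ BadC a k 0}.indicator (fun _ => (1 : ℝ))) ω) ∂P := by
    refine integral_mono ?_ ((integrable_const _).add hi) hpt
    refine (Pool.Agent.Helper94.PG.int_exp (P := P) (measurable_T h 0 x)
      (M := b * n1 x) (fun ω => ?_) l)
    rw [abs_of_nonneg (T_nonneg' (h.cf_bd ω) 0 x)]
    have := T_le (h.cf_bd ω) 0 x
    rwa [sub_zero] at this
  rw [integral_add (integrable_const _) hi] at h1
  have h2 := integral_bad h hR k 0
  have h3 : Real.exp (-(k : ℝ)) ≤ Real.exp (-(l * (a * n1 x))) := by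
    refine Real.exp_le_exp.2 (neg_le_neg ?_)
    rw [hk]
    have h4 : l * a ≤ 1 := mul_le_one₀ hl1 ha.le ha1
    have h5 := n1_nonneg x
    nlinarith
  simp only [integral_const, smul_eq_mul, probReal_univ, one_mul] at h1
  linarith

theorem le_nl (h : Env P X ν δ b) (hR : Reg P X a) (hl : 0 < l) (hl1 : l ≤ 1) (x : F d) :
    a * nr x ≤ nl P X l x := by
  have ha := hR.apos
  have hal : ∀ v : V d, a * n1 v - Real.log 2 / l ≤ al P X l v := by
    intro v
    have h1 := Z_le h hR hl.le hl1 v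
    unfold al
    rw [le_div_iff₀ hl]
    have h2 : Real.log (Z P X l 0 v) ≤ Real.log 2 + -(l * (a * n1 v)) := by
      rw [← Real.log_exp (-(l * (a * n1 v))), ← Real.log_mul (by norm_num) (Real.exp_ne_zero _)]
      exact Real.log_le_log (Z_pos h 0 v) h1
    have h3 : (a * n1 v - Real.log 2 / l) * l = l * (a * n1 v) - Real.log 2 := by
      field_simp
    rw [h3]
    linarith
  have ht : Tendsto (fun n : ℕ => a * nr x - (a * d + Real.log 2 / l) / n) atTop
      (𝓝 (a * nr x - 0)) :=
    tendsto_const_nhds.sub (tendsto_const_div_atTop_nhds_zero_nat _)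
  rw [sub_zero] at ht
  refine le_of_tendsto_of_tendsto ht (tendsto_al h hl x) ?_
  filter_upwards [eventually_gt_atTop 0] with n hn
  have hn' : (0 : ℝ) < n := Nat.cast_pos.2 hn
  have h1 := hal (fl n x)
  have h2 : n * nr x - d ≤ n1 (fl n x) := by
    have h3 := nr_fl n x
    have h4 : nr ((n : ℝ) • x) ≤ nr (rv (fl n x)) + nr (rv (fl n x) - (n : ℝ) • x) := by
      have e : (n : ℝ) • x = rv (fl n x) - (rv (fl n x) - (n : ℝ) • x) := by abel
      unfold nr
      rw [← Finset.sum_add_distrib]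
      refine Finset.sum_le_sum fun i _ => ?_
      simp only [Pi.sub_apply, Pi.smul_apply, smul_eq_mul]
      calc |(n : ℝ) * x i| = |rv (fl n x) i - (rv (fl n x) i - n * x i)| := by congr 1; ring
        _ ≤ _ := abs_sub _ _
    have h5 : nr ((n : ℝ) • x) = n * nr x := by
      unfold nr
      rw [Finset.mul_sum]
      refine Finset.sum_congr rfl fun i _ => ?_
      rw [Pi.smul_apply, smul_eq_mul, abs_mul, abs_of_pos hn']
    have h6 : nr (rv (fl n x)) = n1 (fl n x) := rfl
    linarith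
  have h7 : a * (n * nr x - d) ≤ a * n1 (fl n x) := mul_le_mul_of_nonneg_left h2 ha.le
  rw [le_div_iff₀ hn']
  have h8 : (a * nr x - (a * d + Real.log 2 / l) / n) * n =
      a * (n * nr x - d) - Real.log 2 / l := by
    field_simp
    ring
  rw [h8]
  linarith

end Pool.Agent.Helper49.GP
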