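import Pool.Agent.Helper49.PG.GB2

/-!
# GP-B: corollaries of the lower tail inequality for `0 ≤ l ≤ 1`
-/

set_option autoImplicit false

namespace Pool.Agent.Helper49.GP

open MeasureTheory ProbabilityTheory Filter Real
open scoped Topology

section tail

variable {Ω : Type*} [MeasurableSpace Ω] {P : Measure Ω} [IsProbabilityMeasure P]

open Pool.Agent.Helper94.PG in
theorem low_tail1 {Y : Ω → ℝ} (hY : Measurable Y) {M : ℝ} (hb : ∀ ω, |Y ω| ≤ M) {m K : ℝ}
    (hK : 0 < K) (H : ∀ t : ℝ, 0 ≤ t → t ≤ 1 →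
      ∫ ω, exp (-(t * Y ω)) ∂P ≤ exp (-(t * m) + t ^ 2 * K / 2))
    {s : ℝ} (hs : 0 ≤ s) (hsK : s ≤ K) :
    P.real {ω | Y ω ≤ m - s} ≤ exp (-(s ^ 2 / (2 * K))) := by
  have ht : 0 ≤ s / K := by positivity
  have ht1 : s / K ≤ 1 := (div_le_one hK).2 hsK
  refine (chernoff hY hb ht (m - s)).trans ?_
  refine (mul_le_mul_of_nonneg_left (H _ ht ht1) (exp_pos _).le).trans ?_
  rw [← exp_add]
  refine exp_le_exp.2 (le_of_eq ?_)
  field_simp
  ring

theorem mean_le1 {Y : Ω → ℝ} (hY : Measurable Y) {M : ℝ} (hb : ∀ ω, |Y ω| ≤ M) {m K : ℝ}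
    (hK : 0 < K) (H : ∀ t : ℝ, 0 ≤ t → t ≤ 1 →
      ∫ ω, exp (-(t * Y ω)) ∂P ≤ exp (-(t * m) + t ^ 2 * K / 2))
    {z p : ℝ} (hp : 0 < p) (hz : p ≤ P.real {ω | Y ω ≤ z}) (hmz : m - z ≤ K) :
    m ≤ z + √(2 * K * log (1 / p)) := by
  by_contra hcon
  push Not at hcon
  have h0 := sqrt_nonneg (2 * K * log (1 / p))
  have hs : 0 ≤ m - z := by linarith
  have h1 := low_tail1 hY hb hK H hs hmz
  rw [sub_sub_cancel] at h1
  have h2 := hz.trans h1
  have h3 : log p ≤ -((m - z) ^ 2 / (2 * K)) := by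
    rw [← log_exp (-((m - z) ^ 2 / (2 * K)))]
    exact log_le_log hp h2
  have h4 : (m - z) ^ 2 ≤ 2 * K * log (1 / p) := by
    rw [one_div, log_inv]
    have : (m - z) ^ 2 / (2 * K) ≤ -log p := by linarith
    rw [div_le_iff₀ (by positivity)] at this
    linarith
  have h5 : m - z ≤ √(2 * K * log (1 / p)) := by
    rw [← sqrt_sq hs]
    exact sqrt_le_sqrt h4
  linarith

/-- the first absolute moment -/
theorem abs_dev1 {Y : Ω → ℝ} (hY : Measurable Y) {M : ℝ} (hb : ∀ ω, |Y ω| ≤ M) {K : ℝ}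
    (hK : 1 ≤ K) (H : ∀ t : ℝ, 0 ≤ t → t ≤ 1 → ∫ ω, exp (-(t * Y ω)) ∂P ≤
      exp (-(t * ∫ ω, Y ω ∂P) + t ^ 2 * K / 2)) :
    ∫ ω, |Y ω - ∫ ω', Y ω' ∂P| ∂P ≤ 4 * √K := by
  set m := ∫ ω, Y ω ∂P with hm
  have hK0 : 0 < K := by linarith
  have hr : 0 < √K := sqrt_pos.2 hK0
  have hr1 : 1 ≤ √K := one_le_sqrt.2 hK
  have hYi : Integrable Y P := Integrable.of_bound hY.aestronglyMeasurable M
    (Eventually.of_forall hb)
  have hi := Pool.Agent.Helper94.PG.int_exp (P := P) hY hb (1 / √K)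
  have h1 := H (1 / √K) (by positivity) ((div_le_one hr).2 hr1)
  have hpt : ∀ ω, |Y ω - m| ≤ (Y ω - m) +
      2 * √K * (exp (1 / √K * m) * exp (-(1 / √K * Y ω))) := by
    intro ω
    rw [← exp_add]
    have e : 1 / √K * m + -(1 / √K * Y ω) = -((Y ω - m) / √K) := by ring
    rw [e]
    have hx := add_one_le_exp (-((Y ω - m) / √K))
    have hx0 := exp_pos (-((Y ω - m) / √K))
    rcases abs_cases (Y ω - m) with ⟨h, h'⟩ | ⟨h, h'⟩
    · rw [h]
      have : 0 ≤ 2 * √K * exp (-((Y ω - m) / √K)) := by positivity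
      linarith
    · rw [h]
      have h5 : √K * (-((Y ω - m) / √K) + 1) ≤ √K * exp (-((Y ω - m) / √K)) :=
        mul_le_mul_of_nonneg_left hx hr.le
      have h6 : √K * (-((Y ω - m) / √K) + 1) = -(Y ω - m) + √K := by
        field_simp
      linarith
  have hmi : Integrable (fun ω => Y ω - m) P := hYi.sub (integrable_const m)
  have h2 : ∫ ω, |Y ω - m| ∂P ≤ ∫ ω, ((Y ω - m) +
      2 * √K * (exp (1 / √K * m) * exp (-(1 / √K * Y ω)))) ∂P :=
    integral_mono hmi.abs (hmi.add ((hi.const_mul _).const_mul _)) hpt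
  rw [integral_add hmi ((hi.const_mul _).const_mul _), integral_const_mul, integral_const_mul,
    integral_sub hYi (integrable_const m)] at h2
  have h3 : ∫ _ω : Ω, m ∂P = m := by simp
  rw [h3, ← hm, sub_self, zero_add] at h2
  refine h2.trans ?_
  have h4 : exp (1 / √K * m) * ∫ ω, exp (-(1 / √K * Y ω)) ∂P ≤ exp (1 / 2) := by
    refine (mul_le_mul_of_nonneg_left h1 (exp_pos _).le).trans ?_
    rw [← exp_add]
    refine exp_le_exp.2 (le_of_eq ?_)
    have : √K ^ 2 = K := sq_sqrt hK0.le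
    field_simp
    rw [this]
    ring
  have h5 : exp (1 / 2) ≤ 2 := by
    have h6 : exp (1 / 2) ^ 2 ≤ 2 ^ 2 := by
      rw [← exp_nat_mul]
      have := exp_one_lt_d9
      norm_num at this ⊢
      linarith
    exact le_of_sq_le_sq h6 (by norm_num)
  calc 2 * √K * (exp (1 / √K * m) * ∫ ω, exp (-(1 / √K * Y ω)) ∂P)
      ≤ 2 * √K * 2 := mul_le_mul_of_nonneg_left (h4.trans h5) (by positivity)
    _ = 4 * √K := by ring

end tail

open Pool.Agent.Helper79.GR Pool.Agent.Helper79.GQ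
open Pool.Agent.Helper51.NP Pool.Agent.Helper51.GP

variable {Ω : Type*} [MeasurableSpace Ω] {P : Measure Ω} {d : ℕ} {X : Edge d → Ω → ℝ}
  {ν : Measure ℝ} {a δ b B l : ℝ}

theorem hr_ge (hR : Reg P X a) : 2 ≤ hr a := by
  unfold hr
  rw [le_div_iff₀ hR.apos]
  linarith [hR.ale]

theorem hr_pos (hR : Reg P X a) : 0 < hr a := by linarith [hr_ge hR]

/-- the statement of Herbst's inequality -/
def HerbstStat (P : Measure Ω) (X : Edge d → Ω → ℝ) (a B : ℝ) (S : Set (Edge d)) (x y : V d) :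
    Prop := ∀ l : ℝ, 0 ≤ l → l ≤ 1 → Zc P X S B l x y ≤
      Real.exp (-(l * mc P X S B x y) + hr a * B ^ 3 * l ^ 2 * (n1 (y - x) + 1))

theorem mc_le_of_prob' (h : Env P X ν δ b) (hR : Reg P X a) (hb : 1 ≤ b) (hB : b ≤ B)
    (S : Set (Edge d)) (x y : V d) (H : HerbstStat P X a B S x y) (z p : ℝ) (hp : 0 < p)
    (hpz : p ≤ P.real {ω | T (cut S B (cf X ω)) x y ≤ z}) :
    mc P X S B x y ≤ z + √(4 * hr a * B ^ 3 * (n1 (y - x) + 1) * Real.log (1 / p)) := by
  have := h.prob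
  have hB1 : 1 ≤ B := hb.trans hB
  have hn := n1_nonneg (y - x)
  have hr2 := hr_ge hR
  have hY := measurable_Tc h S B x y
  have hT : ∀ ω, 0 ≤ T (cut S B (cf X ω)) x y ∧ T (cut S B (cf X ω)) x y ≤ B * n1 (y - x) :=
    fun ω => Pool.Agent.Helper33.NP.T_cut_bd (h.cf_bd ω) hB S x y
  have hbd : ∀ ω, |T (cut S B (cf X ω)) x y| ≤ B * n1 (y - x) := fun ω => by
    rw [abs_of_nonneg (hT ω).1]
    exact (hT ω).2
  have hK : 0 < 2 * hr a * B ^ 3 * (n1 (y - x) + 1) := by positivity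
  have H' : ∀ t : ℝ, 0 ≤ t → t ≤ 1 → ∫ ω, Real.exp (-(t * T (cut S B (cf X ω)) x y)) ∂P ≤
      Real.exp (-(t * mc P X S B x y) + t ^ 2 * (2 * hr a * B ^ 3 * (n1 (y - x) + 1)) / 2) := by
    intro t ht ht1
    refine (H t ht ht1).trans (le_of_eq ?_)
    congr 1
    ring
  have hz0 : 0 ≤ z := by
    by_contra hcon
    push Not at hcon
    have : {ω | T (cut S B (cf X ω)) x y ≤ z} = ∅ := by
      ext ω
      simp only [Set.mem_ofPred_eq, Set.mem_empty_iff_false, iff_false, not_le]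
      exact hcon.trans_le (hT ω).1
    rw [this, measureReal_empty] at hpz
    linarith
  have hmz : mc P X S B x y - z ≤ 2 * hr a * B ^ 3 * (n1 (y - x) + 1) := by
    have h1 := mc_le h hB S x y
    have h2 : B ≤ B ^ 3 := le_self_pow₀ hB1 (by norm_num)
    have h3 : B * n1 (y - x) ≤ B ^ 3 * (n1 (y - x) + 1) :=
      mul_le_mul h2 (by linarith) hn (by positivity)
    have h4 : B ^ 3 * (n1 (y - x) + 1) ≤ 2 * hr a * (B ^ 3 * (n1 (y - x) + 1)) :=
      le_mul_of_one_le_left (by positivity) (by linarith)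
    nlinarith
  have h1 := mean_le1 hY hbd hK H' hp hpz hmz
  refine h1.trans (le_of_eq ?_)
  congr 2
  ring

theorem herbst_Z' (h : Env P X ν δ b) (v : V d) (H : HerbstStat P X a b Set.univ 0 v)
    (hl : 0 ≤ l) (hl1 : l ≤ 1) :
    Z P X l 0 v ≤ Real.exp (-(l * mm P X v) + hr a * b ^ 3 * l ^ 2 * (n1 v + 1)) := by
  have h1 := H l hl hl1
  have h2 : ∀ c : Edge d → ℝ, cut Set.univ b c = c := fun c =>
    cut_univ Set.univ fun e => Set.mem_univ e
  unfold Zc mc at h1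
  simp only [h2, sub_zero] at h1
  exact h1

theorem mm_le_of_Z' (h : Env P X ν δ b) (hl : 0 < l) (hl1 : l ≤ 1)
    (v : V d) (H : HerbstStat P X a b Set.univ 0 v) (z c : ℝ) (hc : 0 < c)
    (hz : c ≤ Z P X l 0 v * Real.exp (l * z)) :
    mm P X v ≤ z + hr a * b ^ 3 * l * (n1 v + 1) + Real.log (1 / c) / l := by
  have h1 := herbst_Z' h v H hl.le hl1
  have h2 : c ≤ Real.exp (-(l * mm P X v) + hr a * b ^ 3 * l ^ 2 * (n1 v + 1) + l * z) := by
    rw [Real.exp_add]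
    exact hz.trans (mul_le_mul_of_nonneg_right h1 (Real.exp_pos _).le)
  have h3 : Real.log c ≤ -(l * mm P X v) + hr a * b ^ 3 * l ^ 2 * (n1 v + 1) + l * z :=
    (Real.log_le_iff_le_exp hc).2 h2
  have h4 : Real.log (1 / c) = -Real.log c := by rw [one_div, Real.log_inv]
  rw [h4]
  have h5 : l * mm P X v ≤
      l * (z + hr a * b ^ 3 * l * (n1 v + 1) + -Real.log c / l) := by
    have : l * (z + hr a * b ^ 3 * l * (n1 v + 1) + -Real.log c / l) =
        l * z + hr a * b ^ 3 * l ^ 2 * (n1 v + 1) - Real.log c := by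
      field_simp
      ring
    rw [this]
    linarith
  exact le_of_mul_le_mul_left h5 hl

theorem pos_part' (h : Env P X ν δ b) (hR : Reg P X a) (hb : 1 ≤ b) (x y : V d)
    (H : HerbstStat P X a b Set.univ 0 (y - x)) :
    ∫ ω, max (T (cf X ω) x y - mm P X (y - x)) 0 ∂P ≤
      4 * √((hr a * b ^ 3 + 1) * (n1 (y - x) + 1)) := by
  have := h.prob
  have hY := measurable_T h x y
  have hbd : ∀ ω, |T (cf X ω) x y| ≤ b * n1 (y - x) := fun ω => by
    rw [abs_of_nonneg (T_nonneg' (h.cf_bd ω) x y)]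
    exact T_le (h.cf_bd ω) x y
  have hint := integral_T h x y
  have hTi := integrable_T h x y
  have hn := n1_nonneg (y - x)
  have hr0 := hr_pos hR
  have hb3 : 0 < b ^ 3 := by positivity
  have hK : 1 ≤ 2 * (hr a * b ^ 3 + 1) * (n1 (y - x) + 1) := by
    have h1 : 1 ≤ hr a * b ^ 3 + 1 := by nlinarith
    nlinarith
  have H' : ∀ t : ℝ, 0 ≤ t → t ≤ 1 → ∫ ω, Real.exp (-(t * T (cf X ω) x y)) ∂P ≤
      Real.exp (-(t * ∫ ω, T (cf X ω) x y ∂P) +
        t ^ 2 * (2 * (hr a * b ^ 3 + 1) * (n1 (y - x) + 1)) / 2) := by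
    intro t ht ht1
    rw [hint]
    have h1 := herbst_Z' h (y - x) H ht ht1
    rw [← Z_eq_zero_sub h t x y] at h1
    refine h1.trans (Real.exp_le_exp.2 ?_)
    have : 0 ≤ t ^ 2 * (n1 (y - x) + 1) := by positivity
    nlinarith
  have h1 := abs_dev1 hY hbd hK H'
  rw [hint] at h1
  have hi : Integrable (fun ω => T (cf X ω) x y - mm P X (y - x)) P :=
    hTi.sub (integrable_const _)
  have h2 : ∫ ω, max (T (cf X ω) x y - mm P X (y - x)) 0 ∂P =
      (∫ ω, |T (cf X ω) x y - mm P X (y - x)| ∂P) / 2 := by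
    have h3 : ∀ ω, max (T (cf X ω) x y - mm P X (y - x)) 0 =
        (|T (cf X ω) x y - mm P X (y - x)| + (T (cf X ω) x y - mm P X (y - x))) / 2 := by
      intro ω
      rcases le_total 0 (T (cf X ω) x y - mm P X (y - x)) with h4 | h4
      · rw [max_eq_left h4, abs_of_nonneg h4]; ring
      · rw [max_eq_right h4, abs_of_nonpos h4]; ring
    simp only [h3]
    rw [integral_div, integral_add hi.abs hi, integral_sub hTi (integrable_const _), hint]
    simp
  rw [h2]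
  have h5 : √(2 * (hr a * b ^ 3 + 1) * (n1 (y - x) + 1)) ≤
      2 * √((hr a * b ^ 3 + 1) * (n1 (y - x) + 1)) := by
    have h6 : (2 : ℝ) * √((hr a * b ^ 3 + 1) * (n1 (y - x) + 1)) =
        √(4 * ((hr a * b ^ 3 + 1) * (n1 (y - x) + 1))) := by
      rw [Real.sqrt_mul (by norm_num : (0 : ℝ) ≤ 4)]
      norm_num
    rw [h6]
    have h7 : 0 < (hr a * b ^ 3 + 1) * (n1 (y - x) + 1) := by positivity
    exact Real.sqrt_le_sqrt (by linarith)
  linarith

end Pool.Agent.Helper49.GP
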